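import Pool.Agent.Helper71.P4.St

/-!
# MP_3dd6d4_an, project P4, MODULE X2 (helper67): monotonicity of `lam^3 int s^(lam-1) u^2`
-/

set_option autoImplicit false

open MeasureTheory Set Filter Topology

noncomputable section

namespace Helper71.P4

open Helper69.CR

/-- `R = E/κ + τ u²`. -/
private def RR_X2 (N : ℝ) (u v : ℝ → ℝ) (s : ℝ) : ℝ :=
  (N * (-Real.log s) * v s - u s) ^ 2 * (1 - s) / (N ^ 2 * (-Real.log s) * s) +
    (-Real.log s) * u s ^ 2

private lemma deriv_X2 (u v w p : ℝ → ℝ) (N : ℝ) (hN : 0 < N)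
    (hv : ∀ s, HasDerivAt v (p s) s) (hu : ∀ s, HasDerivAt u (w s) s)
    (hp : ∀ s, (1 - s) * p s = N * u s) (hw : ∀ s, s * w s = -N * v s)
    (l s : ℝ) (h0 : 0 < s) (h1 : s < 1) :
    HasDerivAt (fun x => Real.exp (l * Real.log x) * RR_X2 N u v x)
      (Real.exp ((l - 1) * Real.log s) *
          ((N * (-Real.log s) * v s - u s) ^ 2 * (1 - s) / (N ^ 2 * (-Real.log s) * s)) *
          (l + 1 / (-Real.log s) - 1 / (1 - s)) -
        Real.exp ((l - 1) * Real.log s) * (3 + l * Real.log s) * u s ^ 2) s := by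
  have hlog : Real.log s < 0 := Real.log_neg h0 h1
  have hs : s ≠ 0 := h0.ne'
  have h1s : (1 - s) ≠ 0 := by linarith
  have hL : Real.log s ≠ 0 := hlog.ne
  have hpe : p s = N * u s / (1 - s) := by rw [eq_div_iff h1s]; linarith [hp s]
  have hwe : w s = -N * v s / s := by rw [eq_div_iff hs]; linarith [hw s]
  have dlog : HasDerivAt (fun x => Real.log x) (s⁻¹) s := Real.hasDerivAt_log hs
  have dexp : HasDerivAt (fun x => Real.exp (l * Real.log x))
      (Real.exp (l * Real.log s) * (l * s⁻¹)) s := (dlog.const_mul l).exp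
  have dA : HasDerivAt (fun x => N * (-Real.log x) * v x - u x)
      ((N * (-s⁻¹)) * v s + N * (-Real.log s) * p s - w s) s :=
    ((dlog.neg.const_mul N).mul (hv s)).sub (hu s)
  have dA2 := dA.pow 2
  have dnum := dA2.mul ((hasDerivAt_id s).const_sub 1)
  have dden : HasDerivAt (fun x => N ^ 2 * (-Real.log x) * x)
      ((N ^ 2 * (-s⁻¹)) * s + N ^ 2 * (-Real.log s) * 1) s :=
    ((dlog.neg.const_mul (N ^ 2)).mul (hasDerivAt_id s))
  have hden : N ^ 2 * (-Real.log s) * s ≠ 0 := by
    refine mul_ne_zero (mul_ne_zero (by positivity) (neg_ne_zero.mpr hL)) hs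
  have dq := dnum.div dden hden
  have dt : HasDerivAt (fun x => (-Real.log x) * u x ^ 2)
      ((-s⁻¹) * u s ^ 2 + (-Real.log s) * (2 * u s ^ 1 * w s)) s := by
    have h := dlog.neg.mul ((hu s).pow 2)
    exact h.congr_deriv (by simp)
  have dR := dq.add dt
  have dQ := dexp.mul dR
  have hexp : Real.exp (l * Real.log s) = s * Real.exp ((l - 1) * Real.log s) := by
    have : l * Real.log s = Real.log s + (l - 1) * Real.log s := by ring
    rw [this, Real.exp_add, Real.exp_log h0]
  refine dQ.congr_deriv ?_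
  simp only [id, Pi.pow_apply, Pi.mul_apply, Pi.div_apply, Pi.add_apply]
  rw [hexp, hpe, hwe]
  generalize Real.exp ((l - 1) * Real.log s) = e
  generalize Real.log s = L at *
  generalize u s = a
  generalize v s = b
  have hNN : N ≠ 0 := hN.ne'
  field_simp
  ring

/-- inner inequality. -/
private lemma inner_X2 (u v w p : ℝ → ℝ) (N : ℝ) (hN : 0 < N)
    (hv : ∀ s, HasDerivAt v (p s) s) (hu : ∀ s, HasDerivAt u (w s) s)
    (hp : ∀ s, (1 - s) * p s = N * u s) (hw : ∀ s, s * w s = -N * v s)
    (l a b : ℝ) (hl : 1 ≤ l) (ha : 0 < a) (hab : a ≤ b) (hb : b < 1) :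
    -RR_X2 N u v b ≤
      ∫ s in a..b, Real.exp ((l - 1) * Real.log s) * (3 + l * Real.log s) * u s ^ 2 := by
  set h : ℝ → ℝ := fun s => Real.exp ((l - 1) * Real.log s) *
          ((N * (-Real.log s) * v s - u s) ^ 2 * (1 - s) / (N ^ 2 * (-Real.log s) * s)) *
          (l + 1 / (-Real.log s) - 1 / (1 - s)) with hh
  set g : ℝ → ℝ := fun s => Real.exp ((l - 1) * Real.log s) * (3 + l * Real.log s) * u s ^ 2 with hg
  have hcu : Continuous u := continuous_iff_continuousAt.mpr fun s => (hu s).continuousAt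
  have hcv : Continuous v := continuous_iff_continuousAt.mpr fun s => (hv s).continuousAt
  have hpos : ∀ s ∈ uIcc a b, 0 < s ∧ s < 1 := by
    intro s hs
    rw [uIcc_of_le hab] at hs
    exact ⟨lt_of_lt_of_le ha hs.1, lt_of_le_of_lt hs.2 hb⟩
  have hclog : ContinuousOn Real.log (uIcc a b) :=
    Real.continuousOn_log.mono fun s hs => (hpos s hs).1.ne'
  have hgc : ContinuousOn g (uIcc a b) := by
    apply ContinuousOn.mul
    · apply ContinuousOn.mul
      · exact (continuousOn_const.mul hclog).rexp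
      · exact continuousOn_const.add (continuousOn_const.mul hclog)
    · exact (hcu.pow 2).continuousOn
  have hLne : ∀ s ∈ uIcc a b, Real.log s < 0 := fun s hs => Real.log_neg (hpos s hs).1 (hpos s hs).2
  have hhc : ContinuousOn h (uIcc a b) := by
    apply ContinuousOn.mul
    · apply ContinuousOn.mul
      · exact (continuousOn_const.mul hclog).rexp
      · apply ContinuousOn.div
        · apply ContinuousOn.mul
          · exact (((continuousOn_const.mul hclog.neg).mul hcv.continuousOn).sub
              hcu.continuousOn).pow 2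
          · exact (continuous_const.sub continuous_id).continuousOn
        · exact (continuousOn_const.mul hclog.neg).mul continuousOn_id
        · intro s hs
          have := hLne s hs
          have h0 := (hpos s hs).1
          have : 0 < N ^ 2 * (-Real.log s) * s := by
            have : 0 < -Real.log s := by linarith
            positivity
          exact this.ne'
    · apply ContinuousOn.sub
      · apply ContinuousOn.add continuousOn_const
        apply ContinuousOn.div continuousOn_const hclog.neg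
        intro s hs
        have h1 : (0 : ℝ) < -Real.log s := by linarith [hLne s hs]
        exact h1.ne'
      · apply ContinuousOn.div continuousOn_const
          (continuous_const.sub continuous_id).continuousOn
        intro s hs
        have h1 : (0 : ℝ) < 1 - s := by linarith [(hpos s hs).2]
        exact h1.ne'
  have hder : ∀ s ∈ uIcc a b,
      HasDerivAt (fun x => Real.exp (l * Real.log x) * RR_X2 N u v x) (h s - g s) s := by
    intro s hs
    exact deriv_X2 u v w p N hN hv hu hp hw l s (hpos s hs).1 (hpos s hs).2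
  have hih : IntervalIntegrable h volume a b := hhc.intervalIntegrable
  have hig : IntervalIntegrable g volume a b := hgc.intervalIntegrable
  have hF := intervalIntegral.integral_eq_sub_of_hasDerivAt hder (hih.sub hig)
  rw [intervalIntegral.integral_sub hih hig] at hF
  have hRnn : ∀ s, 0 < s → s < 1 → 0 ≤ RR_X2 N u v s := by
    intro s h0 h1
    have hL : 0 < -Real.log s := by linarith [Real.log_neg h0 h1]
    have h1s : 0 < 1 - s := by linarith
    unfold RR_X2
    positivity
  have hhnn : 0 ≤ ∫ s in a..b, h s := by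
    apply intervalIntegral.integral_nonneg hab
    intro s hs
    have hs' : s ∈ uIcc a b := by rwa [uIcc_of_le hab]
    obtain ⟨h0, h1⟩ := hpos s hs'
    have hL : 0 < -Real.log s := by linarith [Real.log_neg h0 h1]
    have h1s : 0 < 1 - s := by linarith
    have hk : s * (-Real.log s) ≤ 1 - s := by
      have h2 := Real.add_one_le_exp (-Real.log s)
      rw [Real.exp_neg, Real.exp_log h0] at h2
      have h3 : s * (-Real.log s + 1) ≤ s * s⁻¹ := mul_le_mul_of_nonneg_left h2 h0.le
      rw [mul_inv_cancel₀ h0.ne'] at h3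
      linarith
    have hfac : 0 ≤ l + 1 / (-Real.log s) - 1 / (1 - s) := by
      have h4 : 1 / (1 - s) - 1 ≤ 1 / (-Real.log s) := by
        have : 1 / (1 - s) - 1 = s / (1 - s) := by field_simp; ring
        rw [this, div_le_div_iff₀ h1s hL]
        linarith
      linarith
    simp only [hh]
    have : 0 ≤ Real.exp ((l - 1) * Real.log s) *
          ((N * (-Real.log s) * v s - u s) ^ 2 * (1 - s) / (N ^ 2 * (-Real.log s) * s)) := by
      positivity
    exact mul_nonneg this hfac
  have ha1 : a < 1 := lt_of_le_of_lt hab hb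
  have hb0 : 0 < b := lt_of_lt_of_le ha hab
  have hQa : 0 ≤ Real.exp (l * Real.log a) * RR_X2 N u v a :=
    mul_nonneg (Real.exp_pos _).le (hRnn a ha ha1)
  have hQb : Real.exp (l * Real.log b) * RR_X2 N u v b ≤ RR_X2 N u v b := by
    have h1 : Real.exp (l * Real.log b) ≤ 1 := by
      rw [Real.exp_le_one_iff]
      exact mul_nonpos_of_nonneg_of_nonpos (by linarith) (Real.log_neg hb0 hb).le
    exact mul_le_of_le_one_left (hRnn b hb0 hb) h1
  have hgoal : (∫ s in a..b, g s) = (∫ s in a..b, h s) -
      (Real.exp (l * Real.log b) * RR_X2 N u v b - Real.exp (l * Real.log a) * RR_X2 N u v a) := by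
    linarith
  rw [hgoal]
  linarith

/-- `G(s) = ((M+1)^3 s^{m+1} - M^3 s^m) u^2` integrated over `[a,b]`. -/
private lemma trunc_X2 (u v w p : ℝ → ℝ) (N : ℝ) (hN : 0 < N)
    (hv : ∀ s, HasDerivAt v (p s) s) (hu : ∀ s, HasDerivAt u (w s) s)
    (hp : ∀ s, (1 - s) * p s = N * u s) (hw : ∀ s, s * w s = -N * v s)
    (m : ℕ) (a b : ℝ) (ha : 0 < a) (hab : a ≤ b) (hb : b < 1) :
    -(((m : ℝ) + 2) ^ 2 * RR_X2 N u v b) ≤
      ∫ s in a..b, (((m : ℝ) + 2) ^ 3 * s ^ (m + 1) - ((m : ℝ) + 1) ^ 3 * s ^ m) * u s ^ 2 := by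
  have hcu : Continuous u := continuous_iff_continuousAt.mpr fun s => (hu s).continuousAt
  -- continuous version of `log`
  set L : ℝ → ℝ := fun s => Real.log (max s a) with hL
  have hcL : Continuous L := by
    rw [continuous_iff_continuousAt]
    intro s
    exact ((continuous_id.max continuous_const).continuousAt).log
      (lt_of_lt_of_le ha (le_max_right _ _)).ne'
  have hLe : ∀ s, a ≤ s → L s = Real.log s := by
    intro s hs
    simp only [hL]
    rw [max_eq_left hs]
  set G : ℝ → ℝ → ℝ := fun l s => l ^ 2 *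
    (Real.exp ((l - 1) * L s) * (3 + l * L s) * u s ^ 2) with hG
  have hcG : Continuous (Function.uncurry G) := by
    simp only [hG, Function.uncurry_def]
    fun_prop
  have hpt : ∀ s, a ≤ s →
      (((m : ℝ) + 2) ^ 3 * s ^ (m + 1) - ((m : ℝ) + 1) ^ 3 * s ^ m) * u s ^ 2 =
        ∫ l in ((m : ℝ) + 1)..((m : ℝ) + 2), G l s := by
    intro s hs
    have hs0 : 0 < s := lt_of_lt_of_le ha hs
    have hder : ∀ l ∈ uIcc ((m : ℝ) + 1) ((m : ℝ) + 2),
        HasDerivAt (fun l => l ^ 3 * Real.exp ((l - 1) * L s) * u s ^ 2) (G l s) l := by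
      intro l _
      have h1 : HasDerivAt (fun l : ℝ => l ^ 3) (3 * l ^ 2) l := by
        simpa using hasDerivAt_pow 3 l
      have h2 : HasDerivAt (fun l : ℝ => Real.exp ((l - 1) * L s))
          (Real.exp ((l - 1) * L s) * (1 * L s)) l :=
        (((hasDerivAt_id l).sub_const 1).mul_const (L s)).exp
      have h3 := (h1.mul h2).mul_const (u s ^ 2)
      refine h3.congr_deriv ?_
      simp only [hG]
      ring
    have hci : Continuous fun l => G l s := hcG.comp (continuous_id.prodMk continuous_const)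
    rw [intervalIntegral.integral_eq_sub_of_hasDerivAt hder (hci.intervalIntegrable _ _)]
    have e1 : Real.exp (((m : ℝ) + 2 - 1) * L s) = s ^ (m + 1) := by
      rw [hLe s hs]
      have : ((m : ℝ) + 2 - 1) * Real.log s = ((m + 1 : ℕ) : ℝ) * Real.log s := by
        push_cast; ring
      rw [this, Real.exp_nat_mul, Real.exp_log hs0]
    have e2 : Real.exp (((m : ℝ) + 1 - 1) * L s) = s ^ m := by
      rw [hLe s hs]
      have : ((m : ℝ) + 1 - 1) * Real.log s = (m : ℝ) * Real.log s := by ring
      rw [this, Real.exp_nat_mul, Real.exp_log hs0]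
    rw [e1, e2]
    ring
  have hI : (∫ s in a..b, (((m : ℝ) + 2) ^ 3 * s ^ (m + 1) - ((m : ℝ) + 1) ^ 3 * s ^ m) * u s ^ 2) =
      ∫ l in ((m : ℝ) + 1)..((m : ℝ) + 2), ∫ s in a..b, G l s := by
    rw [intervalIntegral_intervalIntegral_swap]
    · apply intervalIntegral.integral_congr
      intro s hs
      rw [uIcc_of_le hab] at hs
      exact hpt s hs.1
    · have hK : IsCompact (uIcc ((m : ℝ) + 1) ((m : ℝ) + 2) ×ˢ uIcc a b) :=
        isCompact_uIcc.prod isCompact_uIcc
      exact (hcG.continuousOn.integrableOn_compact hK).mono_set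
        (Set.prod_mono uIoc_subset_uIcc uIoc_subset_uIcc)
  rw [hI]
  have hRb : 0 ≤ RR_X2 N u v b := by
    have hb0 : 0 < b := lt_of_lt_of_le ha hab
    have hL : 0 < -Real.log b := by linarith [Real.log_neg hb0 hb]
    have h1s : 0 < 1 - b := by linarith
    unfold RR_X2
    positivity
  have hlow : ∀ l ∈ Icc ((m : ℝ) + 1) ((m : ℝ) + 2),
      -(((m : ℝ) + 2) ^ 2 * RR_X2 N u v b) ≤ ∫ s in a..b, G l s := by
    intro l hl
    have hm : (0 : ℝ) ≤ m := Nat.cast_nonneg m
    have hl1 : 1 ≤ l := by linarith [hl.1]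
    have h1 := inner_X2 u v w p N hN hv hu hp hw l a b hl1 ha hab hb
    have h2 : (∫ s in a..b, G l s) = l ^ 2 *
        ∫ s in a..b, Real.exp ((l - 1) * Real.log s) * (3 + l * Real.log s) * u s ^ 2 := by
      rw [← intervalIntegral.integral_const_mul]
      apply intervalIntegral.integral_congr
      intro s hs
      rw [uIcc_of_le hab] at hs
      simp only [hG]
      rw [hLe s hs.1]
    rw [h2]
    have h3 : l ^ 2 ≤ ((m : ℝ) + 2) ^ 2 := by
      apply pow_le_pow_left₀ (by linarith) hl.2
    nlinarith [mul_le_mul_of_nonneg_left h1 (sq_nonneg l), mul_le_mul_of_nonneg_right h3 hRb]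
  have hcI : Continuous fun l => ∫ s in a..b, G l s :=
    intervalIntegral.continuous_parametric_intervalIntegral_of_continuous' hcG a b
  have hmono := intervalIntegral.integral_mono_on (μ := volume)
    (a := (m : ℝ) + 1) (b := (m : ℝ) + 2) (by linarith)
    (continuous_const.intervalIntegrable _ _) (hcI.intervalIntegrable _ _) hlow
  simp only [intervalIntegral.integral_const] at hmono
  have : ((m : ℝ) + 2 - ((m : ℝ) + 1)) = 1 := by ring
  rw [this, one_smul] at hmono
  exact hmono

private lemma full_X2 (u v w p : ℝ → ℝ) (N : ℝ) (hN : 0 < N)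
    (hv : ∀ s, HasDerivAt v (p s) s) (hu : ∀ s, HasDerivAt u (w s) s)
    (hp : ∀ s, (1 - s) * p s = N * u s) (hw : ∀ s, s * w s = -N * v s) (hu1 : u 1 = 0)
    (m : ℕ) :
    0 ≤ ∫ s in (0 : ℝ)..1,
      (((m : ℝ) + 2) ^ 3 * s ^ (m + 1) - ((m : ℝ) + 1) ^ 3 * s ^ m) * u s ^ 2 := by
  have hcu : Continuous u := continuous_iff_continuousAt.mpr fun s => (hu s).continuousAt
  have hcv : Continuous v := continuous_iff_continuousAt.mpr fun s => (hv s).continuousAt
  set G : ℝ → ℝ :=
    fun s => (((m : ℝ) + 2) ^ 3 * s ^ (m + 1) - ((m : ℝ) + 1) ^ 3 * s ^ m) * u s ^ 2 with hG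
  have hcG : Continuous G := by
    simp only [hG]
    fun_prop
  set P : ℝ → ℝ := fun x => ∫ s in (0 : ℝ)..x, G s with hP
  have hcP : Continuous P := intervalIntegral.continuous_primitive
    (fun a b => hcG.intervalIntegrable a b) 0
  set R1 : ℝ → ℝ := fun b => (N * (-Real.log b) * v b - u b) ^ 2 / (N ^ 2 * b) +
    (-Real.log b) * u b ^ 2 with hR1
  -- step 1: limit a to 0
  have h1 : ∀ b, 0 < b → b < 1 → -(((m : ℝ) + 2) ^ 2 * R1 b) ≤ P b := by
    intro b hb0 hb1
    have hRR : RR_X2 N u v b ≤ R1 b := by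
      have hL : 0 < -Real.log b := by linarith [Real.log_neg hb0 hb1]
      have h1b : 0 < 1 - b := by linarith
      have hle : 1 - b ≤ -Real.log b := by linarith [Real.log_le_sub_one_of_pos hb0]
      unfold RR_X2
      simp only [hR1]
      have hden1 : 0 < N ^ 2 * (-Real.log b) * b := by positivity
      have hden2 : 0 < N ^ 2 * b := by positivity
      have : (N * (-Real.log b) * v b - u b) ^ 2 * (1 - b) / (N ^ 2 * (-Real.log b) * b) ≤
          (N * (-Real.log b) * v b - u b) ^ 2 / (N ^ 2 * b) := by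
        rw [div_le_div_iff₀ hden1 hden2]
        have h5 : (N * (-Real.log b) * v b - u b) ^ 2 * (1 - b) * (N ^ 2 * b) ≤
            (N * (-Real.log b) * v b - u b) ^ 2 * (-Real.log b) * (N ^ 2 * b) := by
          apply mul_le_mul_of_nonneg_right _ hden2.le
          exact mul_le_mul_of_nonneg_left hle (sq_nonneg _)
        linarith
      linarith
    have h2 : ∀ a ∈ Ioo (0 : ℝ) b, -(((m : ℝ) + 2) ^ 2 * R1 b) ≤ P b - P a := by
      intro a ha
      have h3 := trunc_X2 u v w p N hN hv hu hp hw m a b ha.1 ha.2.le hb1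
      have h4 : P b - P a = ∫ s in a..b, G s := by
        simp only [hP]
        rw [intervalIntegral.integral_interval_sub_left (hcG.intervalIntegrable _ _)
          (hcG.intervalIntegrable _ _)]
      rw [h4]
      refine le_trans ?_ h3
      have : ((m : ℝ) + 2) ^ 2 * RR_X2 N u v b ≤ ((m : ℝ) + 2) ^ 2 * R1 b :=
        mul_le_mul_of_nonneg_left hRR (sq_nonneg _)
      linarith
    have hlim : Tendsto (fun a => P b - P a) (𝓝[>] 0) (𝓝 (P b - P 0)) :=
      ((continuous_const.sub hcP).tendsto 0).mono_left nhdsWithin_le_nhds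
    have h6 := ge_of_tendsto hlim (Filter.eventually_of_mem (Ioo_mem_nhdsGT hb0) h2)
    have hP0 : P 0 = 0 := by simp [hP]
    rw [hP0, sub_zero] at h6
    exact h6
  -- step 2: limit b to 1
  have hlim1 : Tendsto (fun b => P b + ((m : ℝ) + 2) ^ 2 * R1 b) (𝓝[<] 1)
      (𝓝 (P 1 + ((m : ℝ) + 2) ^ 2 * R1 1)) := by
    have hcl : ContinuousAt Real.log 1 := Real.continuousAt_log one_ne_zero
    have hcR : ContinuousAt R1 1 := by
      simp only [hR1]
      have hd : N ^ 2 * (1 : ℝ) ≠ 0 := by positivity
      apply ContinuousAt.add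
      · apply ContinuousAt.div _ _ hd
        · exact (((continuousAt_const.mul hcl.neg).mul hcv.continuousAt).sub
            hcu.continuousAt).pow 2
        · exact continuousAt_const.mul continuousAt_id
      · exact hcl.neg.mul (hcu.continuousAt.pow 2)
    exact ((hcP.continuousAt.add (continuousAt_const.mul hcR)).tendsto).mono_left
      nhdsWithin_le_nhds
  have hR11 : R1 1 = 0 := by simp [hR1, hu1]
  have h7 : 0 ≤ P 1 + ((m : ℝ) + 2) ^ 2 * R1 1 := by
    refine ge_of_tendsto hlim1 (Filter.eventually_of_mem (Ioo_mem_nhdsLT zero_lt_one) ?_)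
    intro b hb
    have := h1 b hb.1 hb.2
    linarith
  rw [hR11, mul_zero, add_zero] at h7
  exact h7

theorem hX2 : StU → StX2 := by
  intro hU n hn m
  obtain ⟨_, _, hp, hv, ⟨w, _, hu, hw⟩, _, _, _, hu1, _, _⟩ := hU n hn
  have hN : (0 : ℝ) < n := by exact_mod_cast hn
  have hcu : Continuous (uu n) := continuous_iff_continuousAt.mpr fun s => (hu s).continuousAt
  have h := full_X2 (uu n) (vv n) w (pp n) n hN hv hu hp hw hu1 m
  have e : (∫ s in (0 : ℝ)..1,
      (((m : ℝ) + 2) ^ 3 * s ^ (m + 1) - ((m : ℝ) + 1) ^ 3 * s ^ m) * uu n s ^ 2) =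
      ((m : ℝ) + 2) ^ 3 * (∫ s in (0 : ℝ)..1, s ^ (m + 1) * uu n s ^ 2) -
        ((m : ℝ) + 1) ^ 3 * (∫ s in (0 : ℝ)..1, s ^ m * uu n s ^ 2) := by
    rw [← intervalIntegral.integral_const_mul, ← intervalIntegral.integral_const_mul,
      ← intervalIntegral.integral_sub]
    · apply intervalIntegral.integral_congr
      intro s _
      simp only
      ring
    · exact Continuous.intervalIntegrable (by fun_prop) _ _
    · exact Continuous.intervalIntegrable (by fun_prop) _ _
  rw [e] at h
  linarith

end Helper71.P4
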